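import Mathlib

/-! Finite point sets in general position, intervals, strong intervals, and the reduction
of the statement that every avoider is contained in a simple avoider to one insertion step. -/

namespace Pool.Agent.Defl7

abbrev Pt := ℚ × ℚ

/-- General position: no two points share a coordinate. -/
def GP (S : Finset Pt) : Prop := ∀ p ∈ S, ∀ q ∈ S, p ≠ q → p.1 ≠ q.1 ∧ p.2 ≠ q.2

/-- `J` is an interval of `S`. -/
def Itv (S J : Finset Pt) : Prop :=
  J ⊆ S ∧ ∀ a ∈ J, ∀ c ∈ J, ∀ b ∈ S,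
    (a.1 < b.1 → b.1 < c.1 → b ∈ J) ∧ (a.2 < b.2 → b.2 < c.2 → b ∈ J)

/-- `I` is a strong interval of `S`: it overlaps no interval. -/
def Strong (S I : Finset Pt) : Prop :=
  Itv S I ∧ ∀ J, Itv S J → J ⊆ I ∨ I ⊆ J ∨ Disjoint I J

def PSimple (S : Finset Pt) : Prop := ∀ J, Itv S J → J.card ≤ 1 ∨ J = S

/-- not monotone -/
def NM (S : Finset Pt) : Prop :=
  (∃ p ∈ S, ∃ q ∈ S, p.1 < q.1 ∧ p.2 < q.2) ∧ (∃ p ∈ S, ∃ q ∈ S, p.1 < q.1 ∧ q.2 < p.2)

theorem GP.mono {S T : Finset Pt} (hT : GP T) (h : S ⊆ T) : GP S :=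
  fun p hp q hq hne => hT p (h hp) q (h hq) hne

theorem Itv.side1 {S J : Finset Pt} (hS : GP S) (hJ : Itv S J) {p : Pt} (hp : p ∈ S)
    (hpJ : p ∉ J) : (∀ j ∈ J, p.1 < j.1) ∨ (∀ j ∈ J, j.1 < p.1) := by
  by_contra h
  push Not at h
  obtain ⟨⟨j, hj, h1⟩, ⟨j', hj', h2⟩⟩ := h
  have n1 : p ≠ j := fun e => hpJ (e ▸ hj)
  have n2 : p ≠ j' := fun e => hpJ (e ▸ hj')
  have e1 := (hS p hp j (hJ.1 hj) n1).1
  have e2 := (hS p hp j' (hJ.1 hj') n2).1
  exact hpJ ((hJ.2 j hj j' hj' p hp).1 (lt_of_le_of_ne h1 (Ne.symm e1)) (lt_of_le_of_ne h2 e2))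

theorem Itv.side2 {S J : Finset Pt} (hS : GP S) (hJ : Itv S J) {p : Pt} (hp : p ∈ S)
    (hpJ : p ∉ J) : (∀ j ∈ J, p.2 < j.2) ∨ (∀ j ∈ J, j.2 < p.2) := by
  by_contra h
  push Not at h
  obtain ⟨⟨j, hj, h1⟩, ⟨j', hj', h2⟩⟩ := h
  have n1 : p ≠ j := fun e => hpJ (e ▸ hj)
  have n2 : p ≠ j' := fun e => hpJ (e ▸ hj')
  have e1 := (hS p hp j (hJ.1 hj) n1).2
  have e2 := (hS p hp j' (hJ.1 hj') n2).2
  exact hpJ ((hJ.2 j hj j' hj' p hp).2 (lt_of_le_of_ne h1 (Ne.symm e1)) (lt_of_le_of_ne h2 e2))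

theorem Itv.union {S I J : Finset Pt} (hS : GP S) (hI : Itv S I) (hJ : Itv S J)
    {m : Pt} (hmI : m ∈ I) (hmJ : m ∈ J) : Itv S (I ∪ J) := by
  refine ⟨Finset.union_subset hI.1 hJ.1, ?_⟩
  intro a ha c hc b hb
  rw [Finset.mem_union] at ha hc
  constructor
  · intro h1 h2
    by_contra hn
    rw [Finset.mem_union, not_or] at hn
    rcases hI.side1 hS hb hn.1 with h | h <;> rcases hJ.side1 hS hb hn.2 with h' | h'
    · rcases ha with ha | ha
      · exact absurd (h a ha) (not_lt.mpr h1.le)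
      · exact absurd (h' a ha) (not_lt.mpr h1.le)
    · exact absurd (h m hmI) (not_lt.mpr (h' m hmJ).le)
    · exact absurd (h' m hmJ) (not_lt.mpr (h m hmI).le)
    · rcases hc with hc | hc
      · exact absurd (h c hc) (not_lt.mpr h2.le)
      · exact absurd (h' c hc) (not_lt.mpr h2.le)
  · intro h1 h2
    by_contra hn
    rw [Finset.mem_union, not_or] at hn
    rcases hI.side2 hS hb hn.1 with h | h <;> rcases hJ.side2 hS hb hn.2 with h' | h'
    · rcases ha with ha | ha
      · exact absurd (h a ha) (not_lt.mpr h1.le)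
      · exact absurd (h' a ha) (not_lt.mpr h1.le)
    · exact absurd (h m hmI) (not_lt.mpr (h' m hmJ).le)
    · exact absurd (h' m hmJ) (not_lt.mpr (h m hmI).le)
    · rcases hc with hc | hc
      · exact absurd (h c hc) (not_lt.mpr h2.le)
      · exact absurd (h' c hc) (not_lt.mpr h2.le)

/-- sum cut / skew cut -/
def Cut (s : Bool) (S C : Finset Pt) : Prop :=
  C ⊆ S ∧ ∀ p ∈ C, ∀ q ∈ S, q ∉ C → p.1 < q.1 ∧ (if s then p.2 < q.2 else q.2 < p.2)

theorem dec_of_overlap_aux {S I J : Finset Pt} (hS : GP S) (hI : Itv S I) (hJ : Itv S J)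
    (hU : S = I ∪ J) {a b : Pt} (ha : a ∈ I) (haJ : a ∉ J) (hb : b ∈ J) (hbI : b ∉ I)
    (hab : a.1 < b.1) :
    ∃ s C, Cut s S C ∧ C.Nonempty ∧ C ≠ S := by
  have haS : a ∈ S := hI.1 ha
  have hbS : b ∈ S := hJ.1 hb
  have hne : a ≠ b := fun e => haJ (e ▸ hb)
  -- b is right of all I
  have hb1 : ∀ i ∈ I, i.1 < b.1 := by
    rcases hI.side1 hS hbS hbI with h | h
    · exact absurd (h a ha) (not_lt.mpr hab.le)
    · exact h
  have key1 : ∀ p ∈ I, p ∉ J → ∀ q ∈ J, p.1 < q.1 := by
    intro p hp hpJ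
    rcases hJ.side1 hS (hI.1 hp) hpJ with h | h
    · exact h
    · exact absurd (h b hb) (not_lt.mpr (hb1 p hp).le)
  have hCne : (I \ J).Nonempty := ⟨a, by simp [ha, haJ]⟩
  have hCS : I \ J ≠ S := by
    intro e
    have : b ∈ I \ J := e ▸ hbS
    exact hbI (Finset.mem_sdiff.mp this).1
  have memJ : ∀ q ∈ S, q ∉ I \ J → q ∈ J := by
    intro q hq hn
    by_contra hqJ
    rw [hU, Finset.mem_union] at hq
    rcases hq with hq | hq
    · exact hn (Finset.mem_sdiff.mpr ⟨hq, hqJ⟩)
    · exact hqJ hq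
  rcases lt_or_gt_of_ne (hS a haS b hbS hne).2 with hy | hy
  · refine ⟨true, I \ J, ⟨Finset.sdiff_subset.trans hI.1, ?_⟩, hCne, hCS⟩
    intro p hp q hq hqC
    have hp' := Finset.mem_sdiff.mp hp
    have hqJ := memJ q hq hqC
    refine ⟨key1 p hp'.1 hp'.2 q hqJ, ?_⟩
    simp only [if_true]
    have hb2 : ∀ i ∈ I, i.2 < b.2 := by
      rcases hI.side2 hS hbS hbI with h | h
      · exact absurd (h a ha) (not_lt.mpr hy.le)
      · exact h
    rcases hJ.side2 hS (hI.1 hp'.1) hp'.2 with h | h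
    · exact h q hqJ
    · exact absurd (h b hb) (not_lt.mpr (hb2 p hp'.1).le)
  · refine ⟨false, I \ J, ⟨Finset.sdiff_subset.trans hI.1, ?_⟩, hCne, hCS⟩
    intro p hp q hq hqC
    have hp' := Finset.mem_sdiff.mp hp
    have hqJ := memJ q hq hqC
    refine ⟨key1 p hp'.1 hp'.2 q hqJ, ?_⟩
    simp only [Bool.false_eq_true, if_false]
    have hb2 : ∀ i ∈ I, b.2 < i.2 := by
      rcases hI.side2 hS hbS hbI with h | h
      · exact h
      · exact absurd (h a ha) (not_lt.mpr hy.le)
    rcases hJ.side2 hS (hI.1 hp'.1) hp'.2 with h | h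
    · exact absurd (h b hb) (not_lt.mpr (hb2 p hp'.1).le)
    · exact h q hqJ

theorem dec_of_overlap {S I J : Finset Pt} (hS : GP S) (hI : Itv S I) (hJ : Itv S J)
    (hU : S = I ∪ J) {a b : Pt} (ha : a ∈ I) (haJ : a ∉ J) (hb : b ∈ J) (hbI : b ∉ I) :
    ∃ s C, Cut s S C ∧ C.Nonempty ∧ C ≠ S := by
  have hne : a ≠ b := fun e => haJ (e ▸ hb)
  rcases lt_or_gt_of_ne (hS a (hI.1 ha) b (hJ.1 hb) hne).1 with h | h
  · exact dec_of_overlap_aux hS hI hJ hU ha haJ hb hbI h
  · exact dec_of_overlap_aux hS hJ hI (by rw [hU, Finset.union_comm]) hb hbI ha haJ h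

/-- In a decomposable set which has a pair of the opposite type there is a strong proper
nontrivial interval. -/
theorem strong_of_cut_true {S C₀ : Finset Pt} (hS : GP S) (hC₀ : Cut true S C₀)
    (hne : C₀.Nonempty) (hneS : C₀ ≠ S) {u v : Pt} (hu : u ∈ S) (hv : v ∈ S)
    (huv : u.1 < v.1) (huv2 : v.2 < u.2) :
    ∃ K, Strong S K ∧ 2 ≤ K.card ∧ K ≠ S := by
  classical
  set K := S.filter (fun p => ∀ C, Cut true S C → (p ∈ C ↔ u ∈ C)) with hK
  have cutlt : ∀ C, Cut true S C → ∀ p ∈ C, ∀ q ∈ S, q ∉ C → p.1 < q.1 ∧ p.2 < q.2 := by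
    intro C hC p hp q hq hqC
    have := hC.2 p hp q hq hqC
    simpa using this
  have memK : ∀ p, p ∈ K ↔ p ∈ S ∧ ∀ C, Cut true S C → (p ∈ C ↔ u ∈ C) := by
    intro p; rw [hK, Finset.mem_filter]
  have huK : u ∈ K := (memK u).2 ⟨hu, fun C _ => Iff.rfl⟩
  have hvK : v ∈ K := by
    refine (memK v).2 ⟨hv, fun C hC => ⟨fun h => ?_, fun h => ?_⟩⟩
    · by_contra hn
      exact absurd (cutlt C hC v h u hu hn).1 (not_lt.mpr huv.le)
    · by_contra hn
      exact absurd (cutlt C hC u h v hv hn).2 (not_lt.mpr huv2.le)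
  have hKS : K ⊆ S := Finset.filter_subset _ _
  have hItv : Itv S K := by
    refine ⟨hKS, ?_⟩
    intro a ha c hc b hb
    rw [memK] at ha hc
    constructor
    · intro h1 h2
      refine (memK b).2 ⟨hb, fun C hC => ⟨fun h => ?_, fun h => ?_⟩⟩
      · rw [← ha.2 C hC]
        by_contra hn
        exact absurd (cutlt C hC b h a ha.1 hn).1 (not_lt.mpr h1.le)
      · by_contra hn
        have hc' := (hc.2 C hC).2 h
        exact absurd (cutlt C hC c hc' b hb hn).1 (not_lt.mpr h2.le)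
    · intro h1 h2
      refine (memK b).2 ⟨hb, fun C hC => ⟨fun h => ?_, fun h => ?_⟩⟩
      · rw [← ha.2 C hC]
        by_contra hn
        exact absurd (cutlt C hC b h a ha.1 hn).2 (not_lt.mpr h1.le)
      · by_contra hn
        have hc' := (hc.2 C hC).2 h
        exact absurd (cutlt C hC c hc' b hb hn).2 (not_lt.mpr h2.le)
  refine ⟨K, ⟨hItv, ?_⟩, ?_, ?_⟩
  · intro J hJ
    by_contra hcon
    push Not at hcon
    obtain ⟨hJK, hKJ, hdis⟩ := hcon
    obtain ⟨z, hzJ, hzK⟩ := Finset.not_subset.mp hJK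
    obtain ⟨k', hk'K, hk'J⟩ := Finset.not_subset.mp hKJ
    obtain ⟨k, hkK, hkJ⟩ := Finset.not_disjoint_iff.mp hdis
    have hzS := hJ.1 hzJ
    have hkS := hKS hkK
    have hk'S := hKS hk'K
    have hz2 : ∃ C, Cut true S C ∧ ¬ (z ∈ C ↔ u ∈ C) := by
      by_contra hn
      push Not at hn
      exact hzK ((memK z).2 ⟨hzS, hn⟩)
    obtain ⟨C, hC, hzC⟩ := hz2
    have hkC := ((memK k).1 hkK).2 C hC
    have hk'C := ((memK k').1 hk'K).2 C hC
    by_cases huC : u ∈ C
    · have hznC : z ∉ C := fun h => hzC ⟨fun _ => huC, fun _ => h⟩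
      have hkC' : k ∈ C := hkC.2 huC
      have hk'C' : k' ∈ C := hk'C.2 huC
      set C' := S.filter (fun p => ∀ j ∈ J, p.1 < j.1) with hC'
      have hcut : Cut true S C' := by
        refine ⟨Finset.filter_subset _ _, ?_⟩
        intro p hp q hq hqC'
        rw [hC', Finset.mem_filter] at hp
        have hpJ : p ∉ J := fun h => lt_irrefl _ (hp.2 p h)
        have hpC : p ∈ C := by
          by_contra hn
          exact absurd (cutlt C hC k hkC' p hp.1 hn).1 (not_lt.mpr (hp.2 k hkJ).le)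
        have hpz := cutlt C hC p hpC z hzS hznC
        have hp2 : ∀ j ∈ J, p.2 < j.2 := by
          rcases hJ.side2 hS hp.1 hpJ with h | h
          · exact h
          · exact absurd (h z hzJ) (not_lt.mpr hpz.2.le)
        simp only [if_true]
        by_cases hqJ : q ∈ J
        · exact ⟨hp.2 q hqJ, hp2 q hqJ⟩
        · rcases hJ.side1 hS hq hqJ with h | h
          · exact absurd (Finset.mem_filter.mpr ⟨hq, h⟩) hqC'
          · have hqC : q ∉ C := by
              intro hqC
              exact absurd (cutlt C hC q hqC z hzS hznC).1 (not_lt.mpr (h z hzJ).le)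
            exact cutlt C hC p hpC q hq hqC
      have e1 := ((memK k).1 hkK).2 C' hcut
      have e2 := ((memK k').1 hk'K).2 C' hcut
      have n1 : k ∉ C' := by
        intro h
        rw [hC', Finset.mem_filter] at h
        exact lt_irrefl _ (h.2 k hkJ)
      have n2 : k' ∈ C' := by
        rw [hC', Finset.mem_filter]
        refine ⟨hk'S, ?_⟩
        rcases hJ.side1 hS hk'S hk'J with h | h
        · exact h
        · exact absurd (h z hzJ) (not_lt.mpr (cutlt C hC k' hk'C' z hzS hznC).1.le)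
      exact n1 (e1.2 (e2.1 n2))
    · have hzC' : z ∈ C := by
        by_contra hn
        exact hzC ⟨fun h => absurd h hn, fun h => absurd h huC⟩
      have hkC' : k ∉ C := fun h => huC (hkC.1 h)
      have hk'C' : k' ∉ C := fun h => huC (hk'C.1 h)
      set C' := S.filter (fun p => ¬ ∀ j ∈ J, j.1 < p.1) with hC'
      have hcut : Cut true S C' := by
        refine ⟨Finset.filter_subset _ _, ?_⟩
        intro p hp q hq hqC'
        rw [hC', Finset.mem_filter] at hp
        have hq' : ∀ j ∈ J, j.1 < q.1 := by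
          by_contra hn
          exact hqC' (Finset.mem_filter.mpr ⟨hq, hn⟩)
        have hqJ : q ∉ J := fun h => lt_irrefl _ (hq' q h)
        have hqC : q ∉ C := by
          intro hqC
          exact absurd (cutlt C hC q hqC k hkS hkC').1 (not_lt.mpr (hq' k hkJ).le)
        have hzq := cutlt C hC z hzC' q hq hqC
        have hq2 : ∀ j ∈ J, j.2 < q.2 := by
          rcases hJ.side2 hS hq hqJ with h | h
          · exact absurd (h z hzJ) (not_lt.mpr hzq.2.le)
          · exact h
        simp only [if_true]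
        by_cases hpJ : p ∈ J
        · exact ⟨hq' p hpJ, hq2 p hpJ⟩
        · rcases hJ.side1 hS hp.1 hpJ with h | h
          · have hpC : p ∈ C := by
              by_contra hn
              exact absurd (cutlt C hC z hzC' p hp.1 hn).1 (not_lt.mpr (h z hzJ).le)
            exact cutlt C hC p hpC q hq hqC
          · exact absurd h hp.2
      have e1 := ((memK k).1 hkK).2 C' hcut
      have e2 := ((memK k').1 hk'K).2 C' hcut
      have n1 : k ∈ C' := by
        rw [hC', Finset.mem_filter]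
        exact ⟨hkS, fun h => lt_irrefl _ (h k hkJ)⟩
      have n2 : k' ∉ C' := by
        intro h
        rw [hC', Finset.mem_filter] at h
        apply h.2
        rcases hJ.side1 hS hk'S hk'J with h | h
        · exact absurd (h z hzJ) (not_lt.mpr (cutlt C hC z hzC' k' hk'S hk'C').1.le)
        · exact h
      exact n2 (e2.2 (e1.1 n1))
  · have hne' : u ≠ v := fun e => lt_irrefl _ (e ▸ huv)
    have : ({u, v} : Finset Pt) ⊆ K := by
      intro p hp
      rw [Finset.mem_insert, Finset.mem_singleton] at hp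
      rcases hp with rfl | rfl
      · exact huK
      · exact hvK
    calc 2 = ({u, v} : Finset Pt).card := (Finset.card_pair hne').symm
      _ ≤ K.card := Finset.card_le_card this
  · intro e
    obtain ⟨p, hp⟩ := hne
    have hsub := hC₀.1
    obtain ⟨q, hq, hqC⟩ : ∃ q ∈ S, q ∉ C₀ := by
      by_contra hn
      push Not at hn
      exact hneS (Finset.Subset.antisymm hsub hn)
    have hpK : p ∈ K := e ▸ hsub hp
    have hqK : q ∈ K := e ▸ hq
    have e1 := ((memK p).1 hpK).2 C₀ hC₀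
    have e2 := ((memK q).1 hqK).2 C₀ hC₀
    exact hqC (e2.2 (e1.1 hp))

/-- reflection in a horizontal line -/
def flip (p : Pt) : Pt := (p.1, -p.2)

theorem flip_flip (p : Pt) : flip (flip p) = p := by simp [flip]

def flipS (S : Finset Pt) : Finset Pt := S.image flip

theorem mem_flipS {S : Finset Pt} {p : Pt} : p ∈ flipS S ↔ flip p ∈ S := by
  unfold flipS
  rw [Finset.mem_image]
  constructor
  · rintro ⟨q, hq, rfl⟩
    rwa [flip_flip]
  · intro h
    exact ⟨flip p, h, flip_flip p⟩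

theorem flipS_flipS (S : Finset Pt) : flipS (flipS S) = S := by
  ext p
  rw [mem_flipS, mem_flipS, flip_flip]

theorem GP.flip {S : Finset Pt} (hS : GP S) : GP (flipS S) := by
  intro p hp q hq hne
  rw [mem_flipS] at hp hq
  have := hS _ hp _ hq (fun e => hne (by rw [← flip_flip p, ← flip_flip q, e]))
  refine ⟨this.1, fun e => this.2 ?_⟩
  change -p.2 = -q.2
  rw [e]

theorem Itv.flip {S J : Finset Pt} (hJ : Itv S J) : Itv (flipS S) (flipS J) := by
  refine ⟨fun p hp => ?_, ?_⟩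
  · rw [mem_flipS] at hp ⊢
    exact hJ.1 hp
  · intro a ha c hc b hb
    rw [mem_flipS] at ha hc hb
    rw [mem_flipS]
    constructor
    · intro h1 h2
      exact (hJ.2 _ ha _ hc _ hb).1 h1 h2
    · intro h1 h2
      exact (hJ.2 _ hc _ ha _ hb).2 (neg_lt_neg h2) (neg_lt_neg h1)

theorem card_flipS (S : Finset Pt) : (flipS S).card = S.card := by
  unfold flipS
  apply Finset.card_image_of_injective
  intro p q h
  rw [← flip_flip p, ← flip_flip q, h]

theorem Strong.flip {S I : Finset Pt} (hI : Strong S I) : Strong (flipS S) (flipS I) := by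
  refine ⟨hI.1.flip, ?_⟩
  intro J hJ
  have h := hI.2 (flipS J) (by have := hJ.flip; rwa [flipS_flipS] at this)
  rcases h with h | h | h
  · left
    intro p hp
    rw [mem_flipS]
    apply h
    rw [mem_flipS, flip_flip]
    exact hp
  · right; left
    intro p hp
    rw [mem_flipS] at hp
    have := h hp
    rwa [mem_flipS, flip_flip] at this
  · right; right
    rw [Finset.disjoint_left] at h ⊢
    intro p hp hpJ
    rw [mem_flipS] at hp
    apply h hp
    rwa [mem_flipS, flip_flip]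

theorem strong_of_cut {S C₀ : Finset Pt} {s : Bool} (hS : GP S) (hC₀ : Cut s S C₀)
    (hne : C₀.Nonempty) (hneS : C₀ ≠ S) (hNM : NM S) :
    ∃ K, Strong S K ∧ 2 ≤ K.card ∧ K ≠ S := by
  cases s with
  | true =>
    obtain ⟨u, hu, v, hv, h1, h2⟩ := hNM.2
    exact strong_of_cut_true hS hC₀ hne hneS hu hv h1 h2
  | false =>
    obtain ⟨u, hu, v, hv, h1, h2⟩ := hNM.1
    have hcut : Cut true (flipS S) (flipS C₀) := by
      refine ⟨fun p hp => ?_, ?_⟩
      · rw [mem_flipS] at hp ⊢
        exact hC₀.1 hp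
      · intro p hp q hq hqC
        rw [mem_flipS] at hp hq hqC
        have := hC₀.2 _ hp _ hq hqC
        simp only [Bool.false_eq_true, if_false] at this
        refine ⟨this.1, ?_⟩
        simp only [if_true]
        exact neg_lt_neg_iff.mp this.2
    have hne' : (flipS C₀).Nonempty := by
      obtain ⟨p, hp⟩ := hne
      exact ⟨flip p, by rw [mem_flipS, flip_flip]; exact hp⟩
    have hneS' : flipS C₀ ≠ flipS S := by
      intro e
      apply hneS
      rw [← flipS_flipS C₀, e, flipS_flipS]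
    obtain ⟨K, hK, hc, hKS⟩ := strong_of_cut_true (S := flipS S) hS.flip hcut hne' hneS'
      (u := flip u) (v := flip v) (by rw [mem_flipS, flip_flip]; exact hu)
      (by rw [mem_flipS, flip_flip]; exact hv) h1 (neg_lt_neg h2)
    refine ⟨flipS K, ?_, ?_, ?_⟩
    · have := hK.flip
      rwa [flipS_flipS] at this
    · rwa [card_flipS]
    · intro e
      apply hKS
      rw [← flipS_flipS K, e]

/-- **Existence of strong intervals.** -/
theorem exists_strong {S : Finset Pt} (hS : GP S) (hNM : NM S) (hns : ¬ PSimple S) :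
    ∃ K, Strong S K ∧ 2 ≤ K.card ∧ K ≠ S := by
  classical
  unfold PSimple at hns
  push Not at hns
  obtain ⟨J₀, hJ₀, hc₀, hn₀⟩ := hns
  -- maximal proper interval
  set F := S.powerset.filter (fun J => Itv S J ∧ 2 ≤ J.card ∧ J ≠ S) with hF
  have hFne : F.Nonempty := ⟨J₀, by
    rw [hF, Finset.mem_filter, Finset.mem_powerset]
    exact ⟨hJ₀.1, hJ₀, hc₀, hn₀⟩⟩
  obtain ⟨I, hIF, hImax⟩ := Finset.exists_max_image F (fun J => J.card) hFne
  rw [hF, Finset.mem_filter, Finset.mem_powerset] at hIF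
  obtain ⟨_, hI, hIc, hIS⟩ := hIF
  by_cases hst : ∀ J, Itv S J → J ⊆ I ∨ I ⊆ J ∨ Disjoint I J
  · exact ⟨I, ⟨hI, hst⟩, hIc, hIS⟩
  · push Not at hst
    obtain ⟨J, hJ, h1, h2, h3⟩ := hst
    obtain ⟨b, hbJ, hbI⟩ := Finset.not_subset.mp h1
    obtain ⟨a, haI, haJ⟩ := Finset.not_subset.mp h2
    obtain ⟨m, hmI, hmJ⟩ := Finset.not_disjoint_iff.mp h3
    have hU := hI.union hS hJ hmI hmJ
    have hUS : S = I ∪ J := by
      by_contra hne
      have hmem : I ∪ J ∈ F := by
        rw [hF, Finset.mem_filter, Finset.mem_powerset]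
        exact ⟨hU.1, hU, hIc.trans (Finset.card_le_card Finset.subset_union_left),
          fun e => hne e.symm⟩
      have hle := hImax _ hmem
      have hlt : I.card < (I ∪ J).card := by
        apply Finset.card_lt_card
        refine ⟨Finset.subset_union_left, fun h => hbI (h (Finset.mem_union_right _ hbJ))⟩
      exact absurd hle (not_le.mpr hlt)
    obtain ⟨s, C, hC, hCne, hCS⟩ := dec_of_overlap hS hI hJ hUS haI haJ hbJ hbI
    exact strong_of_cut hS hC hCne hCS hNM

end Pool.Agent.Defl7
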