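import Mathlib
import Pool.Agent.Defl7.Pts

/-! The insertion step and the abstract reduction. -/

namespace Pool.Agent.Defl7

/-- intervals with at least two points -/
noncomputable def Fam (S : Finset Pt) : Finset (Finset Pt) := by
  classical
  exact S.powerset.filter (fun J => Itv S J ∧ 2 ≤ J.card)

theorem mem_Fam {S J : Finset Pt} : J ∈ Fam S ↔ Itv S J ∧ 2 ≤ J.card := by
  classical
  unfold Fam
  rw [Finset.mem_filter, Finset.mem_powerset]
  constructor
  · exact fun h => h.2
  · exact fun h => ⟨h.1.1, h⟩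

theorem Itv.erase {S J : Finset Pt} {x : Pt} (hx : x ∉ S) (hJ : Itv (insert x S) J) :
    Itv S (J.erase x) := by
  classical
  refine ⟨fun p hp => ?_, ?_⟩
  · have h := Finset.mem_erase.mp hp
    have := hJ.1 h.2
    rw [Finset.mem_insert] at this
    exact this.resolve_left h.1
  · intro a ha c hc b hb
    have ha' := (Finset.mem_erase.mp ha).2
    have hc' := (Finset.mem_erase.mp hc).2
    have hbx : b ≠ x := fun e => hx (e ▸ hb)
    have h := hJ.2 a ha' c hc' b (Finset.mem_insert_of_mem hb)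
    exact ⟨fun h1 h2 => Finset.mem_erase.mpr ⟨hbx, h.1 h1 h2⟩,
      fun h1 h2 => Finset.mem_erase.mpr ⟨hbx, h.2 h1 h2⟩⟩

theorem drop_count {S I : Finset Pt} {x : Pt} (hx : x ∉ S) (hI : Strong S I)
    (hc : 2 ≤ I.card)
    (f1 : ∀ J, Itv (insert x S) J → I ⊆ J → x ∈ J)
    (f2 : ∀ J, Itv (insert x S) J → x ∈ J → 2 ≤ J.card → I ⊆ J ∧ J.erase x ≠ I) :
    (Fam (insert x S)).card < (Fam S).card := by
  classical
  have hxI : x ∉ I := fun h => hx (hI.1.1 h)
  have hIF : I ∈ Fam S := mem_Fam.2 ⟨hI.1, hc⟩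
  have h1 : (Fam (insert x S)).card ≤ ((Fam S).erase I).card := by
    apply Finset.card_le_card_of_injOn (fun J => J.erase x)
    · intro J hJ
      rw [Finset.mem_coe, mem_Fam] at hJ
      rw [Finset.mem_coe, Finset.mem_erase]
      show J.erase x ≠ I ∧ J.erase x ∈ Fam S
      by_cases hxJ : x ∈ J
      · obtain ⟨g1, g2⟩ := f2 J hJ.1 hxJ hJ.2
        refine ⟨g2, mem_Fam.2 ⟨hJ.1.erase hx, ?_⟩⟩
        have : I ⊆ J.erase x := by
          intro p hp
          exact Finset.mem_erase.mpr ⟨fun e => hxI (e ▸ hp), g1 hp⟩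
        exact hc.trans (Finset.card_le_card this)
      · have he : J.erase x = J := Finset.erase_eq_of_notMem hxJ
        refine ⟨?_, mem_Fam.2 ⟨hJ.1.erase hx, ?_⟩⟩
        · intro e
          rw [he] at e
          exact hxJ (f1 J hJ.1 (by rw [e]))
        · rw [he]; exact hJ.2
    · intro J hJ J' hJ' e
      rw [Finset.mem_coe, mem_Fam] at hJ hJ'
      simp only at e
      have key : ∀ J J' : Finset Pt, Itv (insert x S) J → 2 ≤ J.card → Itv (insert x S) J' →
          J.erase x = J'.erase x → x ∈ J → x ∉ J' → False := by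
        intro J J' hJ hJc hJ' e hxJ hxJ'
        obtain ⟨g1, g2⟩ := f2 J hJ hxJ hJc
        have he' : J'.erase x = J' := Finset.erase_eq_of_notMem hxJ'
        apply hxJ'
        apply f1 J' hJ'
        intro p hp
        rw [← he', ← e]
        exact Finset.mem_erase.mpr ⟨fun e => hxI (e ▸ hp), g1 hp⟩
      by_cases h : x ∈ J <;> by_cases h' : x ∈ J'
      · rw [← Finset.insert_erase h, ← Finset.insert_erase h', e]
      · exact absurd (key J J' hJ.1 hJ.2 hJ'.1 e h h') id
      · exact absurd (key J' J hJ'.1 hJ'.2 hJ.1 e.symm h' h) id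
      · rwa [Finset.erase_eq_of_notMem h, Finset.erase_eq_of_notMem h'] at e
  have h2 : ((Fam S).erase I).card < (Fam S).card := Finset.card_erase_lt_of_mem hIF
  exact lt_of_le_of_lt h1 h2

/-- `x` cuts `I` in value (row) and is separated from it by an entry in position. -/
def RowSep (S I : Finset Pt) (x : Pt) : Prop :=
  (∃ a ∈ I, ∃ b ∈ I, a.2 < x.2 ∧ x.2 < b.2) ∧
  ∃ z ∈ S, ((∀ i ∈ I, i.1 < z.1) ∧ z.1 < x.1) ∨ ((∀ i ∈ I, z.1 < i.1) ∧ x.1 < z.1)

/-- `x` cuts `I` in position (column) and is separated from it by an entry in value. -/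
def ColSep (S I : Finset Pt) (x : Pt) : Prop :=
  (∃ a ∈ I, ∃ b ∈ I, a.1 < x.1 ∧ x.1 < b.1) ∧
  ∃ z ∈ S, ((∀ i ∈ I, i.2 < z.2) ∧ z.2 < x.2) ∨ ((∀ i ∈ I, z.2 < i.2) ∧ x.2 < z.2)

theorem facts_row {S I : Finset Pt} {x : Pt} (hT : GP (insert x S)) (hx : x ∉ S)
    (hI : Strong S I) (h : RowSep S I x) :
    (∀ J, Itv (insert x S) J → I ⊆ J → x ∈ J) ∧
    (∀ J, Itv (insert x S) J → x ∈ J → 2 ≤ J.card → I ⊆ J ∧ J.erase x ≠ I) := by
  classical
  obtain ⟨⟨a, ha, b, hb, hax, hxb⟩, z, hz, hzz⟩ := h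
  have hS : GP S := hT.mono (Finset.subset_insert _ _)
  have hzI : z ∉ I := by
    rcases hzz with h | h
    · exact fun hh => lt_irrefl _ (h.1 z hh)
    · exact fun hh => lt_irrefl _ (h.1 z hh)
  refine ⟨?_, ?_⟩
  · intro J hJ hIJ
    exact (hJ.2 a (hIJ ha) b (hIJ hb) x (Finset.mem_insert_self _ _)).2 hax hxb
  · intro J hJ hxJ hJc
    have hK := hJ.erase hx
    have hnot : ¬ J.erase x ⊆ I := by
      intro hsub
      obtain ⟨k, hk⟩ : (J.erase x).Nonempty := by
        rw [← Finset.card_pos, Finset.card_erase_of_mem hxJ]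
        omega
      have hkI := hsub hk
      have hkJ := (Finset.mem_erase.mp hk).2
      have hzJ : z ∈ J := by
        rcases hzz with h | h
        · exact (hJ.2 k hkJ x hxJ z (Finset.mem_insert_of_mem hz)).1 (h.1 k hkI) h.2
        · exact (hJ.2 x hxJ k hkJ z (Finset.mem_insert_of_mem hz)).1 h.2 (h.1 k hkI)
      exact hzI (hsub (Finset.mem_erase.mpr ⟨fun e => hx (e ▸ hz), hzJ⟩))
    have hcases := hI.2 _ hK
    have hsub : I ⊆ J.erase x := by
      rcases hcases with h | h | h
      · exact absurd h hnot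
      · exact h
      · exfalso
        obtain ⟨k, hk⟩ : (J.erase x).Nonempty := by
          rw [← Finset.card_pos, Finset.card_erase_of_mem hxJ]
          omega
        have hkI : k ∉ I := fun hh => Finset.disjoint_left.mp h hh hk
        have hkJ := (Finset.mem_erase.mp hk).2
        have hkS : k ∈ S := hK.1 hk
        rcases hI.1.side2 hS hkS hkI with g | g
        · have : a ∈ J := (hJ.2 k hkJ x hxJ a (Finset.mem_insert_of_mem (hI.1.1 ha))).2
            (g a ha) hax
          exact Finset.disjoint_left.mp h ha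
            (Finset.mem_erase.mpr ⟨fun e => hx (e ▸ hI.1.1 ha), this⟩)
        · have : b ∈ J := (hJ.2 x hxJ k hkJ b (Finset.mem_insert_of_mem (hI.1.1 hb))).2
            hxb (g b hb)
          exact Finset.disjoint_left.mp h hb
            (Finset.mem_erase.mpr ⟨fun e => hx (e ▸ hI.1.1 hb), this⟩)
    exact ⟨hsub.trans (Finset.erase_subset _ _), fun e => hnot (by rw [e])⟩

theorem facts_col {S I : Finset Pt} {x : Pt} (hT : GP (insert x S)) (hx : x ∉ S)
    (hI : Strong S I) (h : ColSep S I x) :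
    (∀ J, Itv (insert x S) J → I ⊆ J → x ∈ J) ∧
    (∀ J, Itv (insert x S) J → x ∈ J → 2 ≤ J.card → I ⊆ J ∧ J.erase x ≠ I) := by
  classical
  obtain ⟨⟨a, ha, b, hb, hax, hxb⟩, z, hz, hzz⟩ := h
  have hS : GP S := hT.mono (Finset.subset_insert _ _)
  have hzI : z ∉ I := by
    rcases hzz with h | h
    · exact fun hh => lt_irrefl _ (h.1 z hh)
    · exact fun hh => lt_irrefl _ (h.1 z hh)
  refine ⟨?_, ?_⟩
  · intro J hJ hIJ
    exact (hJ.2 a (hIJ ha) b (hIJ hb) x (Finset.mem_insert_self _ _)).1 hax hxb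
  · intro J hJ hxJ hJc
    have hK := hJ.erase hx
    have hnot : ¬ J.erase x ⊆ I := by
      intro hsub
      obtain ⟨k, hk⟩ : (J.erase x).Nonempty := by
        rw [← Finset.card_pos, Finset.card_erase_of_mem hxJ]
        omega
      have hkI := hsub hk
      have hkJ := (Finset.mem_erase.mp hk).2
      have hzJ : z ∈ J := by
        rcases hzz with h | h
        · exact (hJ.2 k hkJ x hxJ z (Finset.mem_insert_of_mem hz)).2 (h.1 k hkI) h.2
        · exact (hJ.2 x hxJ k hkJ z (Finset.mem_insert_of_mem hz)).2 h.2 (h.1 k hkI)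
      exact hzI (hsub (Finset.mem_erase.mpr ⟨fun e => hx (e ▸ hz), hzJ⟩))
    have hcases := hI.2 _ hK
    have hsub : I ⊆ J.erase x := by
      rcases hcases with h | h | h
      · exact absurd h hnot
      · exact h
      · exfalso
        obtain ⟨k, hk⟩ : (J.erase x).Nonempty := by
          rw [← Finset.card_pos, Finset.card_erase_of_mem hxJ]
          omega
        have hkI : k ∉ I := fun hh => Finset.disjoint_left.mp h hh hk
        have hkJ := (Finset.mem_erase.mp hk).2
        have hkS : k ∈ S := hK.1 hk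
        rcases hI.1.side1 hS hkS hkI with g | g
        · have : a ∈ J := (hJ.2 k hkJ x hxJ a (Finset.mem_insert_of_mem (hI.1.1 ha))).1
            (g a ha) hax
          exact Finset.disjoint_left.mp h ha
            (Finset.mem_erase.mpr ⟨fun e => hx (e ▸ hI.1.1 ha), this⟩)
        · have : b ∈ J := (hJ.2 x hxJ k hkJ b (Finset.mem_insert_of_mem (hI.1.1 hb))).1
            hxb (g b hb)
          exact Finset.disjoint_left.mp h hb
            (Finset.mem_erase.mpr ⟨fun e => hx (e ▸ hI.1.1 hb), this⟩)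
    exact ⟨hsub.trans (Finset.erase_subset _ _), fun e => hnot (by rw [e])⟩

/-- occurrence of the pattern `π` in the point set `S` -/
def Occ {k : ℕ} (π : Equiv.Perm (Fin k)) (S : Finset Pt) (f : Fin k → Pt) : Prop :=
  (∀ i, f i ∈ S) ∧ (∀ i j, i < j → (f i).1 < (f j).1) ∧ (∀ i j, π i < π j → (f i).2 < (f j).2)

/-- `S` avoids `π` -/
def PAv {k : ℕ} (π : Equiv.Perm (Fin k)) (S : Finset Pt) : Prop := ¬ ∃ f, Occ π S f

/-- the insertion step -/
def StepHyp {k : ℕ} (π : Equiv.Perm (Fin k)) : Prop :=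
  ∀ S, GP S → PAv π S → ∀ I, Strong S I → 2 ≤ I.card → I ≠ S →
    ∃ x, x ∉ S ∧ GP (insert x S) ∧ PAv π (insert x S) ∧ (RowSep S I x ∨ ColSep S I x)

theorem NM.mono {S T : Finset Pt} (h : NM S) (hST : S ⊆ T) : NM T := by
  obtain ⟨⟨p, hp, q, hq, h1⟩, ⟨p', hp', q', hq', h1'⟩⟩ := h
  exact ⟨⟨p, hST hp, q, hST hq, h1⟩, ⟨p', hST hp', q', hST hq', h1'⟩⟩

theorem exists_simple_NM {k : ℕ} {π : Equiv.Perm (Fin k)} (hstep : StepHyp π) :
    ∀ (n : ℕ) (S : Finset Pt), (Fam S).card ≤ n → GP S → PAv π S → NM S →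
      ∃ T, S ⊆ T ∧ GP T ∧ PAv π T ∧ PSimple T := by
  intro n
  induction n with
  | zero =>
    intro S hn hS hav hnm
    by_cases hs : PSimple S
    · exact ⟨S, subset_rfl, hS, hav, hs⟩
    · obtain ⟨K, hK, hKc, hKS⟩ := exists_strong hS hnm hs
      have : 0 < (Fam S).card := Finset.card_pos.mpr ⟨K, mem_Fam.2 ⟨hK.1, hKc⟩⟩
      omega
  | succ n ih =>
    intro S hn hS hav hnm
    by_cases hs : PSimple S
    · exact ⟨S, subset_rfl, hS, hav, hs⟩
    · obtain ⟨K, hK, hKc, hKS⟩ := exists_strong hS hnm hs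
      obtain ⟨x, hx, hT, hav', hsep⟩ := hstep S hS hav K hK hKc hKS
      have hlt : (Fam (insert x S)).card < (Fam S).card := by
        rcases hsep with h | h
        · have hf := facts_row hT hx hK h
          exact drop_count hx hK hKc hf.1 hf.2
        · have hf := facts_col hT hx hK h
          exact drop_count hx hK hKc hf.1 hf.2
      obtain ⟨T, hST, hT1, hT2, hT3⟩ := ih (insert x S) (by omega) hT hav'
        (hnm.mono (Finset.subset_insert _ _))
      exact ⟨T, (Finset.subset_insert _ _).trans hST, hT1, hT2, hT3⟩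

/-- Adding a corner point on the right creates no occurrence of a pattern whose last entry is
neither the minimum nor the maximum. -/
theorem exists_simple {k : ℕ} {π : Equiv.Perm (Fin k)} (hstep : StepHyp π)
    (hlo : ∀ r : Fin k, (∀ i, i ≤ r) → ∃ i, π i < π r)
    (hhi : ∀ r : Fin k, (∀ i, i ≤ r) → ∃ i, π r < π i)
    (S : Finset Pt) (hS : GP S) (hav : PAv π S) :
    ∃ T, S ⊆ T ∧ GP T ∧ PAv π T ∧ PSimple T := by
  classical
  by_cases hnm : NM S
  · exact exists_simple_NM hstep _ S le_rfl hS hav hnm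
  by_cases hc : S.card ≤ 1
  · exact ⟨S, subset_rfl, hS, hav, fun J hJ => Or.inl ((Finset.card_le_card hJ.1).trans hc)⟩
  -- bounds
  obtain ⟨M, hM⟩ : ∃ M : ℚ, ∀ p ∈ S, p.1 < M ∧ p.2 < M ∧ -M < p.2 := by
    refine ⟨∑ p ∈ S, (|p.1| + |p.2|) + 1, fun p hp => ?_⟩
    have h1 : |p.1| + |p.2| ≤ ∑ p ∈ S, (|p.1| + |p.2|) :=
      Finset.single_le_sum (f := fun p : Pt => |p.1| + |p.2|)
        (fun q _ => add_nonneg (abs_nonneg _) (abs_nonneg _)) hp
    have h2 := le_abs_self p.1
    have h3 := le_abs_self p.2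
    have h4 := neg_abs_le p.2
    have h5 := abs_nonneg p.1
    have h6 := abs_nonneg p.2
    refine ⟨by linarith, by linarith, by linarith⟩
  obtain ⟨p, hp, q, hq, hpq⟩ := Finset.one_lt_card.mp (not_le.mp hc)
  obtain ⟨p, hp, q, hq, hpq1⟩ : ∃ p ∈ S, ∃ q ∈ S, p.1 < q.1 := by
    rcases lt_or_gt_of_ne (hS p hp q hq hpq).1 with h | h
    · exact ⟨p, hp, q, hq, h⟩
    · exact ⟨q, hq, p, hp, h⟩
  have hpq : p ≠ q := fun e => lt_irrefl _ (e ▸ hpq1)
  rcases lt_or_gt_of_ne (hS p hp q hq hpq).2 with hpq2 | hpq2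
  · -- add (M, -M)
    set c : Pt := (M, -M) with hcdef
    have hcS : c ∉ S := fun h => lt_irrefl _ (hM c h).1
    have hT : GP (insert c S) := by
      intro a ha b hb hab
      rw [Finset.mem_insert] at ha hb
      rcases ha with rfl | ha <;> rcases hb with rfl | hb
      · exact absurd rfl hab
      · exact ⟨(hM b hb).1.ne', (hM b hb).2.2.ne⟩
      · exact ⟨(hM a ha).1.ne, (hM a ha).2.2.ne'⟩
      · exact hS a ha b hb hab
    have hav' : PAv π (insert c S) := by
      rintro ⟨f, h1, h2, h3⟩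
      by_cases hall : ∀ i, f i ∈ S
      · exact hav ⟨f, hall, h2, h3⟩
      · push Not at hall
        obtain ⟨r, hr⟩ := hall
        have hrc : f r = c := (Finset.mem_insert.mp (h1 r)).resolve_right hr
        have hle : ∀ i, i ≤ r := by
          intro i
          by_contra hn
          have h4 := h2 r i (not_le.mp hn)
          rcases Finset.mem_insert.mp (h1 i) with h5 | h5
          · rw [h5, hrc] at h4; exact lt_irrefl _ h4
          · rw [hrc] at h4; exact absurd h4 (not_lt.mpr (hM _ h5).1.le)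
        obtain ⟨i, hi⟩ := hlo r hle
        have h4 := h3 i r hi
        rcases Finset.mem_insert.mp (h1 i) with h5 | h5
        · rw [h5, hrc] at h4; exact lt_irrefl _ h4
        · rw [hrc] at h4; exact absurd h4 (not_lt.mpr (hM _ h5).2.2.le)
    have hnm' : NM (insert c S) := by
      refine ⟨⟨p, Finset.mem_insert_of_mem hp, q, Finset.mem_insert_of_mem hq, hpq1, hpq2⟩,
        ⟨p, Finset.mem_insert_of_mem hp, c, Finset.mem_insert_self _ _, (hM p hp).1,
          (hM p hp).2.2⟩⟩
    obtain ⟨T, hST, hT1, hT2, hT3⟩ := exists_simple_NM hstep _ _ le_rfl hT hav' hnm'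
    exact ⟨T, (Finset.subset_insert _ _).trans hST, hT1, hT2, hT3⟩
  · -- add (M, M)
    set c : Pt := (M, M) with hcdef
    have hcS : c ∉ S := fun h => lt_irrefl _ (hM c h).1
    have hT : GP (insert c S) := by
      intro a ha b hb hab
      rw [Finset.mem_insert] at ha hb
      rcases ha with rfl | ha <;> rcases hb with rfl | hb
      · exact absurd rfl hab
      · exact ⟨(hM b hb).1.ne', (hM b hb).2.1.ne'⟩
      · exact ⟨(hM a ha).1.ne, (hM a ha).2.1.ne⟩
      · exact hS a ha b hb hab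
    have hav' : PAv π (insert c S) := by
      rintro ⟨f, h1, h2, h3⟩
      by_cases hall : ∀ i, f i ∈ S
      · exact hav ⟨f, hall, h2, h3⟩
      · push Not at hall
        obtain ⟨r, hr⟩ := hall
        have hrc : f r = c := (Finset.mem_insert.mp (h1 r)).resolve_right hr
        have hle : ∀ i, i ≤ r := by
          intro i
          by_contra hn
          have h4 := h2 r i (not_le.mp hn)
          rcases Finset.mem_insert.mp (h1 i) with h5 | h5
          · rw [h5, hrc] at h4; exact lt_irrefl _ h4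
          · rw [hrc] at h4; exact absurd h4 (not_lt.mpr (hM _ h5).1.le)
        obtain ⟨i, hi⟩ := hhi r hle
        have h4 := h3 r i hi
        rcases Finset.mem_insert.mp (h1 i) with h5 | h5
        · rw [h5, hrc] at h4; exact lt_irrefl _ h4
        · rw [hrc] at h4; exact absurd h4 (not_lt.mpr (hM _ h5).2.1.le)
    have hnm' : NM (insert c S) := by
      refine ⟨⟨p, Finset.mem_insert_of_mem hp, c, Finset.mem_insert_self _ _, (hM p hp).1,
          (hM p hp).2.1⟩, ⟨p, Finset.mem_insert_of_mem hp, q, Finset.mem_insert_of_mem hq, hpq1, hpq2⟩⟩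
    obtain ⟨T, hST, hT1, hT2, hT3⟩ := exists_simple_NM hstep _ _ le_rfl hT hav' hnm'
    exact ⟨T, (Finset.subset_insert _ _).trans hST, hT1, hT2, hT3⟩

end Pool.Agent.Defl7
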