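import Mathlib
import Pool.Agent.Defl7.Red

/-! Permutations, classes, deflatability; translation to point sets. -/

namespace Pool.Agent.Defl7

/-- The permutation `α` is contained in the permutation `β`. -/
def Contains {k n : ℕ} (α : Equiv.Perm (Fin k)) (β : Equiv.Perm (Fin n)) : Prop :=
  ∃ f : Fin k → Fin n, StrictMono f ∧ ∀ i j, α i < α j ↔ β (f i) < β (f j)

/-- Permutations of all lengths. -/
abbrev AnyPerm := Σ n : ℕ, Equiv.Perm (Fin n)

/-- A class is a set of permutations closed downward under containment. -/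
def IsClass (C : Set AnyPerm) : Prop := ∀ a b : AnyPerm, Contains a.2 b.2 → b ∈ C → a ∈ C

/-- The principal class `Av(π)`. -/
def Av {k : ℕ} (π : Equiv.Perm (Fin k)) : Set AnyPerm := {b | ¬ Contains π b.2}

/-- A set `J` of entries (given by their positions) is an interval if the positions and the
values are contiguous ranges. -/
def IsInterval {n : ℕ} (β : Equiv.Perm (Fin n)) (J : Set (Fin n)) : Prop :=
  J.OrdConnected ∧ (β '' J).OrdConnected

/-- Simple permutations: the only intervals are (at most) single entries and everything. -/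
def IsSimple {n : ℕ} (β : Equiv.Perm (Fin n)) : Prop :=
  ∀ J : Set (Fin n), IsInterval β J → J.Subsingleton ∨ J = Set.univ

/-- The simple permutations of a set of permutations. -/
def Simples (C : Set AnyPerm) : Set AnyPerm := {a | a ∈ C ∧ IsSimple a.2}

/-- The substitution closure: the union of all classes whose simple permutations are exactly
those of `D` (see `substClosure_isLargest`: it is the largest such class). -/
def substClosure (D : Set AnyPerm) : Set AnyPerm :=
  {a | ∃ E, IsClass E ∧ Simples E = Simples D ∧ a ∈ E}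

/-- `C` is deflatable if `C ⊆ ⟨D⟩` for some proper subclass `D` of `C`. -/
def Deflatable (C : Set AnyPerm) : Prop :=
  ∃ D : Set AnyPerm, IsClass D ∧ D ⊂ C ∧ C ⊆ substClosure D

theorem Contains.refl {n : ℕ} (α : Equiv.Perm (Fin n)) : Contains α α :=
  ⟨id, strictMono_id, fun _ _ => Iff.rfl⟩

theorem Contains.trans {k n m : ℕ} {α : Equiv.Perm (Fin k)} {β : Equiv.Perm (Fin n)}
    {γ : Equiv.Perm (Fin m)} (h : Contains α β) (h' : Contains β γ) : Contains α γ := by
  obtain ⟨f, hf, h1⟩ := h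
  obtain ⟨g, hg, h2⟩ := h'
  exact ⟨g ∘ f, hg.comp hf, fun i j => (h1 i j).trans (h2 _ _)⟩

theorem isClass_Av {k : ℕ} (π : Equiv.Perm (Fin k)) : IsClass (Av π) :=
  fun _ _ hab hb ha => hb (ha.trans hab)

/-- The substitution closure of a class is the largest class with the same simples. -/
theorem substClosure_isLargest {D : Set AnyPerm} (hD : IsClass D) :
    IsGreatest {E | IsClass E ∧ Simples E = Simples D} (substClosure D) := by
  refine ⟨⟨?_, ?_⟩, ?_⟩
  · rintro a b hab ⟨E, hE, h1, h2⟩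
    exact ⟨E, hE, h1, hE a b hab h2⟩
  · ext a
    constructor
    · rintro ⟨⟨E, hE, h1, h2⟩, h3⟩
      rw [← h1]
      exact ⟨h2, h3⟩
    · rintro ⟨h1, h2⟩
      exact ⟨⟨D, hD, rfl, h1⟩, h2⟩
  · rintro E ⟨hE, h1⟩ a ha
    exact ⟨E, hE, h1, ha⟩

theorem not_deflatable_of {C : Set AnyPerm}
    (h : ∀ a ∈ C, ∃ b ∈ C, IsSimple b.2 ∧ Contains a.2 b.2) : ¬ Deflatable C := by
  rintro ⟨D, hD, hDC, hCD⟩
  apply hDC.2
  intro a ha
  obtain ⟨b, hb, hbs, hab⟩ := h a ha
  obtain ⟨E, hE, h1, h2⟩ := hCD hb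
  have : b ∈ Simples E := ⟨h2, hbs⟩
  rw [h1] at this
  exact hD a b hab this.1

/-- the point set of a permutation -/
noncomputable def ptS {n : ℕ} (τ : Equiv.Perm (Fin n)) : Finset Pt :=
  Finset.univ.image (fun i : Fin n => (((i : ℕ) : ℚ), ((τ i : ℕ) : ℚ)))

theorem mem_ptS {n : ℕ} (τ : Equiv.Perm (Fin n)) (i : Fin n) :
    (((i : ℕ) : ℚ), ((τ i : ℕ) : ℚ)) ∈ ptS τ :=
  Finset.mem_image.mpr ⟨i, Finset.mem_univ _, rfl⟩

theorem GP_ptS {n : ℕ} (τ : Equiv.Perm (Fin n)) : GP (ptS τ) := by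
  intro p hp q hq hne
  obtain ⟨i, _, rfl⟩ := Finset.mem_image.mp hp
  obtain ⟨j, _, rfl⟩ := Finset.mem_image.mp hq
  have hij : i ≠ j := fun e => hne (by rw [e])
  refine ⟨fun e => hij ?_, fun e => hij ?_⟩
  · have e' : ((i : ℕ) : ℚ) = ((j : ℕ) : ℚ) := e
    exact Fin.ext (by exact_mod_cast e')
  · have e' : ((τ i : ℕ) : ℚ) = ((τ j : ℕ) : ℚ) := e
    exact τ.injective (Fin.ext (by exact_mod_cast e'))

theorem PAv_ptS {k n : ℕ} {π : Equiv.Perm (Fin k)} {τ : Equiv.Perm (Fin n)}
    (h : ¬ Contains π τ) : PAv π (ptS τ) := by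
  rintro ⟨f, h1, h2, h3⟩
  apply h
  have hg : ∀ i, ∃ j : Fin n, f i = (((j : ℕ) : ℚ), ((τ j : ℕ) : ℚ)) := by
    intro i
    obtain ⟨j, _, hj⟩ := Finset.mem_image.mp (h1 i)
    exact ⟨j, hj.symm⟩
  choose g hg using hg
  have hmono : ∀ i j, i < j → g i < g j := by
    intro i j hij
    have := h2 i j hij
    rw [hg i, hg j] at this
    have h' : ((g i : ℕ) : ℚ) < ((g j : ℕ) : ℚ) := this
    exact Fin.lt_def.mpr (by exact_mod_cast h')
  have hval : ∀ i j, π i < π j → τ (g i) < τ (g j) := by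
    intro i j hij
    have := h3 i j hij
    rw [hg i, hg j] at this
    have h' : ((τ (g i) : ℕ) : ℚ) < ((τ (g j) : ℕ) : ℚ) := this
    exact Fin.lt_def.mpr (by exact_mod_cast h')
  refine ⟨g, hmono, fun i j => ⟨hval i j, fun h => ?_⟩⟩
  by_contra hn
  rcases eq_or_lt_of_le (not_lt.mp hn) with e | e
  · have := π.injective e
    subst this
    exact lt_irrefl _ h
  · exact lt_asymm h (hval _ _ e)

/-- every point set in general position is the point set of a permutation, up to relabelling -/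
theorem exists_perm (T : Finset Pt) (hT : GP T) :
    ∃ (β : Equiv.Perm (Fin T.card)) (g : Fin T.card → Pt), (∀ i, g i ∈ T) ∧
      (∀ p ∈ T, ∃ i, g i = p) ∧ (∀ i j, i < j ↔ (g i).1 < (g j).1) ∧
      (∀ i j, β i < β j ↔ (g i).2 < (g j).2) := by
  classical
  have hX : (T.image Prod.fst).card = T.card := by
    apply Finset.card_image_of_injOn
    intro p hp q hq e
    by_contra hne
    exact (hT p hp q hq hne).1 e
  have hY : (T.image Prod.snd).card = T.card := by
    apply Finset.card_image_of_injOn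
    intro p hp q hq e
    by_contra hne
    exact (hT p hp q hq hne).2 e
  set ex := (T.image Prod.fst).orderIsoOfFin hX with hex
  set ey := (T.image Prod.snd).orderIsoOfFin hY with hey
  have hg : ∀ i : Fin T.card, ∃ p ∈ T, p.1 = (ex i : ℚ) := by
    intro i
    obtain ⟨p, hp, h⟩ := Finset.mem_image.mp (ex i).2
    exact ⟨p, hp, h⟩
  choose g hgT hg1 using hg
  have hx : ∀ i j, i < j ↔ (g i).1 < (g j).1 := by
    intro i j
    rw [hg1 i, hg1 j, Subtype.coe_lt_coe]
    exact (OrderIso.lt_iff_lt ex).symm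
  have hginj : Function.Injective g := by
    intro i j e
    rcases lt_trichotomy i j with h | h | h
    · have := (hx i j).1 h; rw [e] at this; exact absurd this (lt_irrefl _)
    · exact h
    · have := (hx j i).1 h; rw [e] at this; exact absurd this (lt_irrefl _)
  set b : Fin T.card → Fin T.card :=
    fun i => ey.symm ⟨(g i).2, Finset.mem_image.mpr ⟨g i, hgT i, rfl⟩⟩ with hb
  have hby : ∀ i, ((ey (b i) : (T.image Prod.snd)) : ℚ) = (g i).2 := by
    intro i
    rw [hb]
    simp
  have hbinj : Function.Injective b := by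
    intro i j e
    have h1 := hby i
    have h2 := hby j
    rw [e] at h1
    by_contra hne
    exact (hT _ (hgT i) _ (hgT j) (fun h => hne (hginj h))).2 (h1.symm.trans h2)
  have hbbij : Function.Bijective b := Finite.injective_iff_bijective.mp hbinj
  refine ⟨Equiv.ofBijective b hbbij, g, hgT, ?_, hx, ?_⟩
  · intro p hp
    obtain ⟨i, hi⟩ := ex.surjective ⟨p.1, Finset.mem_image.mpr ⟨p, hp, rfl⟩⟩
    refine ⟨i, ?_⟩
    by_contra hne
    apply (hT _ (hgT i) p hp hne).1
    rw [hg1 i, hi]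
  · intro i j
    rw [Equiv.ofBijective_apply, Equiv.ofBijective_apply, ← hby i, ← hby j, Subtype.coe_lt_coe]
    exact (OrderIso.lt_iff_lt ey).symm

theorem simple_extension_of_step {k : ℕ} {π : Equiv.Perm (Fin k)} (hstep : StepHyp π)
    (hlo : ∀ r : Fin k, (∀ i, i ≤ r) → ∃ i, π i < π r)
    (hhi : ∀ r : Fin k, (∀ i, i ≤ r) → ∃ i, π r < π i) :
    ∀ a ∈ Av π, ∃ b ∈ Av π, IsSimple b.2 ∧ Contains a.2 b.2 := by
  classical
  rintro ⟨n, τ⟩ hτ
  obtain ⟨T, hST, hT1, hT2, hT3⟩ := exists_simple hstep hlo hhi (ptS τ) (GP_ptS τ) (PAv_ptS hτ)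
  obtain ⟨β, g, hgT, hgs, hx, hy⟩ := exists_perm T hT1
  have hginj : Function.Injective g := by
    intro i j e
    rcases lt_trichotomy i j with h | h | h
    · have := (hx i j).1 h; rw [e] at this; exact absurd this (lt_irrefl _)
    · exact h
    · have := (hx j i).1 h; rw [e] at this; exact absurd this (lt_irrefl _)
  refine ⟨⟨T.card, β⟩, ?_, ?_, ?_⟩
  · rintro ⟨f, hf, h⟩
    apply hT2
    exact ⟨g ∘ f, fun i => hgT _, fun i j hij => (hx _ _).1 (hf hij),
      fun i j hij => (hy _ _).1 ((h i j).1 hij)⟩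
  · intro J hJ
    set J' := T.filter (fun p => ∃ i ∈ J, g i = p) with hJ'
    have mem : ∀ i, g i ∈ J' ↔ i ∈ J := by
      intro i
      rw [hJ', Finset.mem_filter]
      constructor
      · rintro ⟨_, j, hj, e⟩
        rwa [← hginj e]
      · intro h
        exact ⟨hgT i, i, h, rfl⟩
    have hItv : Itv T J' := by
      refine ⟨Finset.filter_subset _ _, ?_⟩
      intro a ha c hc b hb
      obtain ⟨_, i, hi, rfl⟩ := Finset.mem_filter.mp ha
      obtain ⟨_, j, hj, rfl⟩ := Finset.mem_filter.mp hc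
      obtain ⟨l, rfl⟩ := hgs b hb
      rw [mem]
      constructor
      · intro h1 h2
        exact hJ.1.out hi hj ⟨((hx _ _).2 h1).le, ((hx _ _).2 h2).le⟩
      · intro h1 h2
        have : β l ∈ β '' J := hJ.2.out ⟨i, hi, rfl⟩ ⟨j, hj, rfl⟩
          ⟨((hy _ _).2 h1).le, ((hy _ _).2 h2).le⟩
        obtain ⟨l', hl', e⟩ := this
        rwa [← β.injective e]
    rcases hT3 J' hItv with h | h
    · left
      intro i hi j hj
      apply hginj
      exact Finset.card_le_one.mp h _ ((mem i).2 hi) _ ((mem j).2 hj)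
    · right
      ext i
      simp only [Set.mem_univ, iff_true]
      rw [← mem, h]
      exact hgT i
  · have hf : ∀ i : Fin n, ∃ j, g j = (((i : ℕ) : ℚ), ((τ i : ℕ) : ℚ)) :=
      fun i => hgs _ (hST (mem_ptS τ i))
    choose f hf using hf
    refine ⟨f, ?_, ?_⟩
    · intro i j hij
      rw [hx, hf i, hf j]
      show ((i : ℕ) : ℚ) < ((j : ℕ) : ℚ)
      exact_mod_cast hij
    · intro i j
      rw [hy, hf i, hf j]
      show _ ↔ ((τ i : ℕ) : ℚ) < ((τ j : ℕ) : ℚ)
      rw [Nat.cast_lt, Fin.lt_def]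

end Pool.Agent.Defl7
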